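import Pool.Agent.H.MP_37efd7_lc.A
set_option linter.style.longLine false
namespace Pool.Agent.Results.MP_37efd7_lc.Unc
open Set Filter Topology Pool.Agent.H.MP_37efd7_lc

theorem result : ∃ (G : Type) (_ : Group G), Topz G ∧ ¬ Adm G ∧
    ∀ [TopologicalSpace G] [IsTopologicalGroup G] [T2Space G] (x : ℕ → G) (y : G),
      Tendsto x atTop (𝓝 y) → ∀ᶠ n in atTop, x n = y := by
  refine ⟨D ⧸ N, inferInstance, topz key, fun ⟨_, _, _, h, α, _, k⟩ => ?_, fun _ _ => seqc key⟩
  obtain ⟨A, hA⟩ := h 0 zero_le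
  have : ∀ β, scl A β ⊆ A := fun β => by
    induction β using Ordinal.limitRecOn with
    | zero => simp [scl]
    | add_one β ih =>
      rw [scl, Ordinal.limitRecOn_add_one]
      rintro y ⟨x, i, j⟩
      obtain ⟨n, e⟩ := (seqc key j).exists
      exact ih (e ▸ i n)
    | limit β l ih =>
      rw [scl, Ordinal.limitRecOn_limit _ _ _ _ l]
      exact iUnion_subset fun γ => ih γ.1 γ.2
  exact hA (by simpa [scl] using subset_closure.antisymm (k A ▸ this α))

end Pool.Agent.Results.MP_37efd7_lc.Unc
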